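import Mathlib

/-!
# Quotients of polynomials in two variables by interpolation
(helper for the steps RU, RV, QA of the family `Pool.Agent.W808.KS`)
-/

set_option autoImplicit false

namespace Pool.Agent.W493.KS
open Polynomial

/-- a polynomial in two variables -/
noncomputable def S2 (n : ℕ) (r : ℕ → ℕ → ℂ) (u v : ℂ) : ℂ :=
  ∑ i ∈ Finset.range (n + 1), ∑ j ∈ Finset.range (n + 1), r i j * u ^ i * v ^ j

/-- two polynomials agreeing at infinitely many points -/
theorem poly_ext {P Q : ℂ[X]} {a : ℕ → ℂ} (ha : Function.Injective a)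
    (h : ∀ m, P.eval (a m) = Q.eval (a m)) : P = Q := by
  apply Polynomial.eq_of_infinite_eval_eq
  apply Set.Infinite.mono (s := Set.range a)
  · rintro _ ⟨m, rfl⟩
    exact h m
  · exact Set.infinite_range_of_injective ha

theorem sum_coeff (n : ℕ) (c : ℕ → ℂ) {j : ℕ} (hj : j ≤ n) :
    (∑ i ∈ Finset.range (n + 1), C (c i) * X ^ i : ℂ[X]).coeff j = c j := by
  rw [finsetSum_coeff, Finset.sum_eq_single j]
  · simp
  · intro b _ hb
    rw [coeff_C_mul, coeff_X_pow, if_neg (fun h => hb h.symm), mul_zero]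
  · intro h
    exact absurd (Finset.mem_range.2 (by omega)) h

theorem sum_eval (n : ℕ) (c : ℕ → ℂ) (x : ℂ) :
    (∑ i ∈ Finset.range (n + 1), C (c i) * X ^ i : ℂ[X]).eval x =
      ∑ i ∈ Finset.range (n + 1), c i * x ^ i := by
  rw [eval_finsetSum]
  refine Finset.sum_congr rfl fun i _ => ?_
  simp

theorem S2_u (n : ℕ) (r : ℕ → ℕ → ℂ) (u v : ℂ) :
    S2 n r u v = ∑ i ∈ Finset.range (n + 1), (∑ j ∈ Finset.range (n + 1), r i j * v ^ j) * u ^ i := by
  unfold S2
  refine Finset.sum_congr rfl fun i _ => ?_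
  rw [Finset.sum_mul]
  refine Finset.sum_congr rfl fun j _ => ?_
  ring

theorem S2_v (n : ℕ) (r : ℕ → ℕ → ℂ) (u v : ℂ) :
    S2 n r u v = ∑ j ∈ Finset.range (n + 1), (∑ i ∈ Finset.range (n + 1), r i j * u ^ i) * v ^ j := by
  unfold S2
  rw [Finset.sum_comm]
  refine Finset.sum_congr rfl fun i _ => ?_
  rw [Finset.sum_mul]

theorem S2_poly_u (n : ℕ) (r : ℕ → ℕ → ℂ) (v : ℂ) : ∃ P : ℂ[X], ∀ u, P.eval u = S2 n r u v :=
  ⟨∑ i ∈ Finset.range (n + 1), C (∑ j ∈ Finset.range (n + 1), r i j * v ^ j) * X ^ i, fun u => by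
    rw [sum_eval, S2_u]⟩

theorem S2_poly_v (n : ℕ) (r : ℕ → ℕ → ℂ) (u : ℂ) : ∃ P : ℂ[X], ∀ v, P.eval v = S2 n r u v :=
  ⟨∑ j ∈ Finset.range (n + 1), C (∑ i ∈ Finset.range (n + 1), r i j * u ^ i) * X ^ j, fun u => by
    rw [sum_eval, S2_v]⟩

/-- the coefficients are determined by the values on a grid -/
theorem uniq {n : ℕ} {r r' : ℕ → ℕ → ℂ} {a b : ℕ → ℂ} (ha : Function.Injective a)
    (hb : Function.Injective b) (h : ∀ m m', S2 n r (b m) (a m') = S2 n r' (b m) (a m')) :
    ∀ i j, i ≤ n → j ≤ n → r i j = r' i j := by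
  intro i j hi hj
  have h1 : ∀ m', ∑ j ∈ Finset.range (n + 1), r i j * (a m') ^ j =
      ∑ j ∈ Finset.range (n + 1), r' i j * (a m') ^ j := by
    intro m'
    have h2 : (∑ i ∈ Finset.range (n + 1),
          C (∑ j ∈ Finset.range (n + 1), r i j * (a m') ^ j) * X ^ i : ℂ[X]) =
        ∑ i ∈ Finset.range (n + 1), C (∑ j ∈ Finset.range (n + 1), r' i j * (a m') ^ j) * X ^ i := by
      apply poly_ext hb
      intro m
      rw [sum_eval, sum_eval, ← S2_u, ← S2_u]
      exact h m m'
    have h3 := congrArg (fun P : ℂ[X] => P.coeff i) h2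
    rwa [sum_coeff n _ hi, sum_coeff n _ hi] at h3
  have h2 : (∑ j ∈ Finset.range (n + 1), C (r i j) * X ^ j : ℂ[X]) =
      ∑ j ∈ Finset.range (n + 1), C (r' i j) * X ^ j := by
    apply poly_ext ha
    intro m
    rw [sum_eval, sum_eval]
    exact h1 m
  have h3 := congrArg (fun P : ℂ[X] => P.coeff j) h2
  rwa [sum_coeff n _ hj, sum_coeff n _ hj] at h3

/-- quotient by interpolation -/
theorem quot2 {n : ℕ} {E p : ℂ → ℂ → ℂ} {a b : ℕ → ℂ} (ha : Function.Injective a)
    (hb : Function.Injective b)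
    (h1 : ∀ m, ∃ Q : ℂ[X], Q.natDegree ≤ n ∧ ∀ u, E u (a m) = p u (a m) * Q.eval u)
    (h2 : ∀ m, ∃ Q : ℂ[X], Q.natDegree ≤ n ∧ ∀ v, E (b m) v = p (b m) v * Q.eval v)
    (h3 : ∀ i j, p (b i) (a j) ≠ 0)
    (h4 : ∀ u, ∃ P : ℂ[X], ∀ v, P.eval v = E u v)
    (h5 : ∀ u, ∃ P : ℂ[X], ∀ v, P.eval v = p u v) :
    ∃ r : ℕ → ℕ → ℂ, ∀ u v, E u v = p u v * S2 n r u v := by
  choose Q hQd hQ using h1
  choose Q' hQd' hQ' using h2
  set bas : ℕ → ℂ[X] := fun i => Lagrange.basis (Finset.range (n + 1)) b i with hbas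
  have hinj : Set.InjOn b (Finset.range (n + 1) : Set ℕ) := hb.injOn
  have hbd : ∀ i ∈ Finset.range (n + 1), (bas i).natDegree < n + 1 := by
    intro i hi
    have h6 := Lagrange.degree_basis hinj hi
    have h7 : (bas i).natDegree = n := by
      apply Polynomial.natDegree_eq_of_degree_eq_some
      rw [hbas]
      simp only
      rw [h6, Finset.card_range]
      rfl
    omega
  have hval : ∀ i m, (Q m).eval (b i) = (Q' i).eval (a m) := by
    intro i m
    have h6 := hQ m (b i)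
    have h7 := hQ' i (a m)
    rw [h6] at h7
    exact mul_left_cancel₀ (h3 i m) h7
  have hint : ∀ m u, (Q m).eval u =
      ∑ i ∈ Finset.range (n + 1), (Q' i).eval (a m) * (bas i).eval u := by
    intro m u
    have h6 : Q m = Lagrange.interpolate (Finset.range (n + 1)) b (fun i => (Q' i).eval (a m)) := by
      apply Lagrange.eq_interpolate_of_eval_eq _ hinj
      · rw [Finset.card_range]
        exact Polynomial.degree_le_natDegree.trans_lt (by
          exact_mod_cast Nat.lt_succ_of_le (hQd m))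
      · intro i _
        exact hval i m
    conv_lhs => rw [h6, Lagrange.interpolate_apply, eval_finsetSum]
    refine Finset.sum_congr rfl fun i _ => ?_
    rw [eval_mul, eval_C]
  refine ⟨fun k j => ∑ i ∈ Finset.range (n + 1), (bas i).coeff k * (Q' i).coeff j, ?_⟩
  have hS : ∀ u v, S2 n (fun k j => ∑ i ∈ Finset.range (n + 1), (bas i).coeff k * (Q' i).coeff j) u v
      = ∑ i ∈ Finset.range (n + 1), (Q' i).eval v * (bas i).eval u := by
    intro u v
    unfold S2
    have h6 : ∀ i ∈ Finset.range (n + 1), (Q' i).eval v * (bas i).eval u =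
        ∑ k ∈ Finset.range (n + 1), ∑ j ∈ Finset.range (n + 1),
          (bas i).coeff k * (Q' i).coeff j * u ^ k * v ^ j := by
      intro i hi
      rw [Polynomial.eval_eq_sum_range' (hbd i hi) u,
        Polynomial.eval_eq_sum_range' (Nat.lt_succ_of_le (hQd' i)) v, mul_comm, Finset.sum_mul_sum]
      refine Finset.sum_congr rfl fun k _ => Finset.sum_congr rfl fun j _ => ?_
      ring
    rw [Finset.sum_congr rfl h6]
    symm
    rw [Finset.sum_comm]
    refine Finset.sum_congr rfl fun k _ => ?_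
    rw [Finset.sum_comm]
    refine Finset.sum_congr rfl fun j _ => ?_
    rw [Finset.sum_mul, Finset.sum_mul]
  intro u v
  obtain ⟨P1, hP1⟩ := h4 u
  obtain ⟨P2, hP2⟩ := h5 u
  obtain ⟨P3, hP3⟩ := S2_poly_v n
    (fun k j => ∑ i ∈ Finset.range (n + 1), (bas i).coeff k * (Q' i).coeff j) u
  have h6 : P1 = P2 * P3 := by
    apply poly_ext ha
    intro m
    rw [eval_mul, hP1, hP2, hP3, hQ m u, hint m u, hS]
  rw [← hP1, h6, eval_mul, hP2, hP3]

/-- division by linear factors -/
theorem list_div (n : ℕ) (l : List ℂ) : ∀ P : ℂ[X], l.Nodup → (∀ z ∈ l, P.eval z = 0) →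
    P.natDegree ≤ l.length + n → ∃ Q : ℂ[X], Q.natDegree ≤ n ∧
      P = (l.map (fun z => X - C z)).prod * Q := by
  induction l with
  | nil =>
    intro P _ _ hd
    exact ⟨P, by simpa using hd, by simp⟩
  | cons z l ih =>
    intro P hl hz hd
    rw [List.nodup_cons] at hl
    obtain ⟨P', hP'⟩ := Polynomial.dvd_iff_isRoot.2 (hz z List.mem_cons_self)
    have hd' : P'.natDegree ≤ l.length + n := by
      by_cases h0 : P' = 0
      · rw [h0, natDegree_zero]; omega
      · have h1 : P.natDegree = 1 + P'.natDegree := by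
          rw [hP', natDegree_mul (X_sub_C_ne_zero z) h0, natDegree_X_sub_C]
        rw [List.length_cons] at hd
        omega
    have hz' : ∀ y ∈ l, P'.eval y = 0 := by
      intro y hy
      have h1 := hz y (List.mem_cons_of_mem _ hy)
      rw [hP', eval_mul, eval_sub, eval_X, eval_C] at h1
      rcases mul_eq_zero.1 h1 with h2 | h2
      · exfalso
        rw [sub_eq_zero] at h2
        rw [h2] at hy
        exact hl.1 hy
      · exact h2
    obtain ⟨Q, hQd, hQ⟩ := ih P' hl.2 hz' hd'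
    refine ⟨Q, hQd, ?_⟩
    rw [List.map_cons, List.prod_cons, mul_assoc, ← hQ, ← hP']

end Pool.Agent.W493.KS
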